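import Pool.Agent.R557.KO.Main

/-!
MP_c19dcb_al, Q1: for every connected locally compact group `G` the representation kernel `KO(G)`
has weight at most `2^ℵ₀`.
-/

namespace Pool.Agent.Results.MP_c19dcb_al.KernelWeightLeContinuum

universe u

/-- `KO(G)`: the intersection of the kernels of all continuous homomorphisms from `G` to the
groups `GL_n(ℂ)`, `n ∈ ℕ`. -/
def KO (G : Type u) [Group G] [TopologicalSpace G] : Subgroup G :=
  ⨅ (n : ℕ) (ρ : {ρ : G →* GL (Fin n) ℂ // Continuous ρ}), ρ.1.ker

/-- The weight of a topological space: the least cardinality of a base of its topology. -/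
noncomputable def weight (X : Type u) [TopologicalSpace X] : Cardinal.{u} :=
  sInf {c | ∃ B : Set (Set X), TopologicalSpace.IsTopologicalBasis B ∧ Cardinal.mk B = c}

theorem result : ∀ (G : Type u) [Group G] [TopologicalSpace G] [IsTopologicalGroup G] [T2Space G]
    [LocallyCompactSpace G] [ConnectedSpace G], weight (KO G) ≤ Cardinal.continuum := by
  intro G _ _ _ _ _ _
  have h : (KO G : Set G) = Pool.Agent.R557.KO.KO G := by
    ext g
    simp only [KO, SetLike.mem_coe, Subgroup.mem_iInf, MonoidHom.mem_ker, Subtype.forall]
    rfl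
  have h2 : weight (KO G : Set G) ≤ Cardinal.continuum := by
    rw [h]
    exact Pool.Agent.R557.KO.main G
  exact h2

end Pool.Agent.Results.MP_c19dcb_al.KernelWeightLeContinuum
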